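import Mathlib.Combinatorics.SimpleGraph.Paths
import Mathlib.Combinatorics.SimpleGraph.Finite
import Mathlib.Order.Interval.Set.Basic
import Mathlib.Data.Fintype.Pi
import Mathlib.Tactic.IntervalCases

/-!
# Closures of sets of path-order properties need not be intervals

A graph of order `n` has property `P_i` if any two distinct vertices are joined by a path with
exactly `i` vertices.  There is a graph of order `7` having `P_4` and `P_6` but not `P_5`.
-/

namespace Pool.Agent.Results.MP_0ab4d0_co.SevenVertexGraph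

/-- Property `P_i`: every pair of distinct vertices is joined by a path with `i` vertices. -/
def HasP {V : Type*} (G : SimpleGraph V) (i : ℕ) : Prop :=
  ∀ u v : V, u ≠ v → ∃ p : G.Walk u v, p.IsPath ∧ p.length + 1 = i

/-- The closure of a set `S` of indices, for graphs of order `n`: all `j` with `2 ≤ j ≤ n` such
that every graph of order `n` having `P_i` for all `i ∈ S` also has `P_j`. -/
def pathClosure (n : ℕ) (S : Set ℕ) : Set ℕ :=
  {j | 2 ≤ j ∧ j ≤ n ∧ ∀ G : SimpleGraph (Fin n), (∀ i ∈ S, HasP G i) → HasP G j}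

/-- Edge list of the example. -/
def edgeList : List (Fin 7 × Fin 7) := [(0, 4), (0, 5), (1, 3), (1, 5), (1, 6), (2, 3), (2, 4), (2, 6), (3, 6), (4, 6), (5, 6)]

/-- The example graph. -/
def H : SimpleGraph (Fin 7) where
  Adj i j := ((i, j) ∈ edgeList ∨ (j, i) ∈ edgeList)
  symm := ⟨by decide +kernel⟩
  loopless := ⟨by decide +kernel⟩

instance : DecidableRel H.Adj := fun i j =>
  inferInstanceAs (Decidable ((i, j) ∈ edgeList ∨ (j, i) ∈ edgeList))

/-- witnesses of paths with four vertices -/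
def tab4 : List (List (List (Fin 7))) := [
  [[], [0, 4, 6, 1], [0, 4, 6, 2], [0, 4, 2, 3], [0, 5, 6, 4], [0, 4, 6, 5], [0, 4, 2, 6]],
  [[1, 6, 4, 0], [], [1, 3, 6, 2], [1, 5, 6, 3], [1, 3, 2, 4], [1, 3, 6, 5], [1, 3, 2, 6]],
  [[2, 6, 4, 0], [2, 3, 6, 1], [], [2, 4, 6, 3], [2, 3, 6, 4], [2, 3, 1, 5], [2, 3, 1, 6]],
  [[3, 1, 5, 0], [3, 2, 6, 1], [3, 1, 6, 2], [], [3, 1, 6, 4], [3, 1, 6, 5], [3, 1, 5, 6]],
  [[4, 6, 5, 0], [4, 0, 5, 1], [4, 6, 3, 2], [4, 2, 6, 3], [], [4, 2, 6, 5], [4, 0, 5, 6]],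
  [[5, 6, 4, 0], [5, 6, 3, 1], [5, 0, 4, 2], [5, 1, 6, 3], [5, 1, 6, 4], [], [5, 0, 4, 6]],
  [[6, 1, 5, 0], [6, 2, 3, 1], [6, 1, 3, 2], [6, 4, 2, 3], [6, 3, 2, 4], [6, 3, 1, 5], []]]

/-- witnesses of paths with six vertices -/
def tab6 : List (List (List (Fin 7))) := [
  [[], [0, 4, 2, 3, 6, 1], [0, 4, 6, 1, 3, 2], [0, 4, 2, 6, 1, 3], [0, 5, 1, 3, 2, 4], [0, 4, 2, 3, 1, 5], [0, 4, 2, 3, 1, 6]],
  [[1, 3, 2, 6, 4, 0], [], [1, 5, 0, 4, 6, 2], [1, 5, 0, 4, 2, 3], [1, 3, 6, 5, 0, 4], [1, 3, 2, 4, 0, 5], [1, 5, 0, 4, 2, 6]],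
  [[2, 3, 1, 6, 4, 0], [2, 4, 0, 5, 6, 1], [], [2, 4, 0, 5, 1, 3], [2, 3, 1, 5, 0, 4], [2, 3, 6, 4, 0, 5], [2, 4, 0, 5, 1, 6]],
  [[3, 1, 5, 6, 4, 0], [3, 2, 4, 0, 5, 1], [3, 1, 5, 0, 4, 2], [], [3, 1, 5, 6, 2, 4], [3, 1, 6, 4, 0, 5], [3, 1, 5, 0, 4, 6]],
  [[4, 2, 3, 1, 5, 0], [4, 0, 5, 6, 3, 1], [4, 0, 5, 1, 3, 2], [4, 0, 5, 1, 6, 3], [], [4, 2, 3, 1, 6, 5], [4, 0, 5, 1, 3, 6]],
  [[5, 1, 3, 2, 4, 0], [5, 0, 4, 2, 3, 1], [5, 0, 4, 6, 3, 2], [5, 0, 4, 2, 6, 3], [5, 1, 3, 2, 6, 4], [], [5, 0, 4, 2, 3, 6]],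
  [[6, 1, 3, 2, 4, 0], [6, 2, 4, 0, 5, 1], [6, 1, 5, 0, 4, 2], [6, 4, 0, 5, 1, 3], [6, 3, 1, 5, 0, 4], [6, 3, 2, 4, 0, 5], []]]

/-- a list describes a path from `u` to `v` with `k` vertices -/
def Good (k : ℕ) (u v : Fin 7) (l : List (Fin 7)) : Prop :=
  l.head? = some u ∧ l.getLast? = some v ∧ l.IsChain H.Adj ∧ l.Nodup ∧ l.length = k

instance (k : ℕ) (u v : Fin 7) (l : List (Fin 7)) : Decidable (Good k u v l) := by
  unfold Good; infer_instance

lemma exists_path_of_good {k : ℕ} {u v : Fin 7} {l : List (Fin 7)} (h : Good k u v l) :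
    ∃ p : H.Walk u v, p.IsPath ∧ p.length + 1 = k := by
  obtain ⟨h1, h2, h3, h4, h5⟩ := h
  have hne : l ≠ [] := by
    rintro rfl
    simp at h1
  have e1 : l.head hne = u := by
    have := List.head?_eq_some_head hne
    rw [this] at h1
    simpa using h1
  have e2 : l.getLast hne = v := by
    have := List.getLast?_eq_some_getLast hne
    rw [this] at h2
    simpa using h2
  subst e1 e2
  refine ⟨SimpleGraph.Walk.ofSupport l hne h3, ?_, ?_⟩
  · rw [SimpleGraph.Walk.isPath_def, SimpleGraph.Walk.support_ofSupport]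
    exact h4
  · rw [SimpleGraph.Walk.length_ofSupport]
    have : 0 < l.length := List.length_pos_iff.mpr hne
    omega

lemma hasP4 : HasP H 4 := by
  intro u v huv
  apply exists_path_of_good (l := ((tab4.getD u.val []).getD v.val []))
  revert u v
  decide +kernel

lemma hasP6 : HasP H 6 := by
  intro u v huv
  apply exists_path_of_good (l := ((tab6.getD u.val []).getD v.val []))
  revert u v
  decide +kernel

lemma key : ∀ a b c : Fin 7, H.Adj 3 a → H.Adj a b → H.Adj b c → H.Adj c 6 →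
    a ≠ c → 3 ≠ b → 3 ≠ c → a ≠ 6 → b ≠ 6 → False := by
  decide +kernel

lemma not_hasP5 : ¬ HasP H 5 := by
  intro h
  obtain ⟨p, hp, hl⟩ := h 3 6 (by decide)
  have hl4 : p.length = 4 := by omega
  have h0 : p.getVert 0 = 3 := p.getVert_zero
  have h4 : p.getVert 4 = 6 := by rw [← hl4]; exact p.getVert_length
  have a01 := p.adj_getVert_succ (i := 0) (by omega)
  have a12 := p.adj_getVert_succ (i := 1) (by omega)
  have a23 := p.adj_getVert_succ (i := 2) (by omega)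
  have a34 := p.adj_getVert_succ (i := 3) (by omega)
  have inj : ∀ i j : ℕ, i ≤ 4 → j ≤ 4 → i ≠ j → p.getVert i ≠ p.getVert j := by
    intro i j hi hj hij he
    exact hij (hp.getVert_injOn (by simp; omega) (by simp; omega) he)
  simp only [Nat.reduceAdd] at a01 a12 a23 a34
  rw [h0] at a01
  rw [h4] at a34
  refine key _ _ _ a01 a12 a23 a34 (inj 1 3 (by omega) (by omega) (by omega)) ?_ ?_ ?_ ?_
  · exact fun h => inj 0 2 (by omega) (by omega) (by omega) (h0.trans h)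
  · exact fun h => inj 0 3 (by omega) (by omega) (by omega) (h0.trans h)
  · exact fun h => inj 1 4 (by omega) (by omega) (by omega) (h.trans h4.symm)
  · exact fun h => inj 2 4 (by omega) (by omega) (by omega) (h.trans h4.symm)

/-- **MP_0ab4d0, Q1 (disproved).** There are `n ≥ 4` (namely `n = 7`), a set
`S ⊆ {4, ..., n}` (namely `{4, 6}`) and integers `a < b < c` with `a` and `c` in the closure of
`S` but `b` not in it. -/
theorem result : ∃ n : ℕ, 4 ≤ n ∧ ∃ S : Set ℕ, S ⊆ Set.Icc 4 n ∧ ∃ a b c : ℕ,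
    a < b ∧ b < c ∧ a ∈ pathClosure n S ∧ c ∈ pathClosure n S ∧ b ∉ pathClosure n S := by
  refine ⟨7, by norm_num, {4, 6}, ?_, 4, 5, 6, by norm_num, by norm_num, ?_, ?_, ?_⟩
  · intro x hx
    simp only [Set.mem_insert_iff, Set.mem_singleton_iff] at hx
    rcases hx with rfl | rfl <;> simp
  · exact ⟨by norm_num, by norm_num, fun G hG => hG 4 (by simp)⟩
  · exact ⟨by norm_num, by norm_num, fun G hG => hG 6 (by simp)⟩
  · rintro ⟨-, -, h⟩
    apply not_hasP5
    apply h H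
    intro i hi
    simp only [Set.mem_insert_iff, Set.mem_singleton_iff] at hi
    rcases hi with rfl | rfl
    · exact hasP4
    · exact hasP6

end Pool.Agent.Results.MP_0ab4d0_co.SevenVertexGraph
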